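import Mathlib

/-!
# The gap between broadcast dimension and adjacency dimension: the sharp exponential rate

We answer Q1 positively, with connected graphs and with the best possible exponential rate.
The graph `gap p` consists of
* a centre `z` and, for every 0/1 string `s` of length `p`, a path `z - (0, s) - (1, s) - (2, s)`;
* for every coordinate `t` a vertex `w t` joined to the three vertices `(j, s)` of every string
  `s` with `s t = true`.
Broadcasting with strength `2` from `z` and with strength `1` from each `w t` resolves the graph, at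
cost `p + 2`. In an adjacency resolving set the pair `(1, s)`, `(2, s)` must be separated by one
of the three vertices `(j, s)`, so that the adjacency dimension is at least `2 ^ p`. The broadcast
dimension is exactly `p + 2`, because a graph with broadcast dimension `k` has at most
`k + 2 ^ k` vertices and `gap p` has `3 * 2 ^ p + p + 1`.

The same count shows that a graph with broadcast dimension `k` less than its adjacency dimension has
at most `3 * 2 ^ (k - 2) + k - 1` vertices, the order of `gap (k - 2)`.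
-/

namespace Pool.Agent.Results.MP_d61170_co.SharpGap

open Finset

/-- The truncated distance `d_k(x,y) = min {d(x,y), k+1}`, where `d(x,y) = ∞` when `x` and `y`
lie in different components (`SimpleGraph.edist`). -/
noncomputable def truncDist {V : Type} (G : SimpleGraph V) (k : ℕ) (x y : V) : ℕ∞ :=
  min (G.edist x y) ((k : ℕ∞) + 1)

/-- `f` is a resolving broadcast of `G`: for all distinct `x, y` there is `z` with
`f z = i > 0` and `d_i(x,z) ≠ d_i(y,z)`. -/
def IsResolvingBroadcast {V : Type} (G : SimpleGraph V) (f : V → ℕ) : Prop :=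
  ∀ x y : V, x ≠ y → ∃ z : V, 0 < f z ∧ truncDist G (f z) x z ≠ truncDist G (f z) y z

/-- The broadcast dimension: the least total cost of a resolving broadcast. -/
noncomputable def bdim {V : Type} [Fintype V] (G : SimpleGraph V) : ℕ :=
  sInf {n : ℕ | ∃ f : V → ℕ, IsResolvingBroadcast G f ∧ ∑ v, f v = n}

/-- The adjacency dimension: the same minimum over resolving broadcasts with values in
`{0, 1}`. -/
noncomputable def adim {V : Type} [Fintype V] (G : SimpleGraph V) : ℕ :=
  sInf {n : ℕ | ∃ f : V → ℕ, IsResolvingBroadcast G f ∧ (∀ v, f v ≤ 1) ∧ ∑ v, f v = n}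

/-! ### General facts -/

section General

variable {V : Type} (G : SimpleGraph V)

lemma truncDist_self (k : ℕ) (x : V) : truncDist G k x x = 0 := by
  simp [truncDist]

lemma truncDist_ne_zero (k : ℕ) {x y : V} (h : x ≠ y) : truncDist G k x y ≠ 0 := by
  unfold truncDist
  intro h0
  rcases min_eq_iff.mp h0 with h1 | h1
  · exact h (SimpleGraph.edist_eq_zero_iff.mp h1.1)
  · have := h1.1
    simp at this

/-- A vertex with positive strength is separated from every other vertex. -/
lemma separated_of_pos (f : V → ℕ) {x y : V} (hxy : x ≠ y) (h : 0 < f x ∨ 0 < f y) :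
    ∃ z : V, 0 < f z ∧ truncDist G (f z) x z ≠ truncDist G (f z) y z := by
  rcases h with h | h
  · refine ⟨x, h, ?_⟩
    rw [truncDist_self]
    exact (truncDist_ne_zero G _ hxy.symm).symm
  · refine ⟨y, h, ?_⟩
    rw [truncDist_self]
    exact truncDist_ne_zero G _ hxy

lemma isResolvingBroadcast_of_pos (f : V → ℕ) (hf : ∀ v, 0 < f v) :
    IsResolvingBroadcast G f :=
  fun x _ hxy => separated_of_pos G f hxy (Or.inl (hf x))

lemma truncDist_le (k : ℕ) (x y : V) : truncDist G k x y ≤ ((k + 1 : ℕ) : ℕ∞) := by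
  unfold truncDist
  push_cast
  exact min_le_right _ _

lemma truncDist_eq_one_iff {k : ℕ} (hk : 1 ≤ k) (x y : V) :
    truncDist G k x y = 1 ↔ G.Adj x y := by
  rw [← SimpleGraph.edist_eq_one_iff_adj]
  unfold truncDist
  have hk' : (1 : ℕ∞) ≤ k := by exact_mod_cast hk
  constructor
  · intro h
    rcases min_eq_iff.mp h with h | h
    · exact h.1
    · have h2 : ((k : ℕ∞) + 1) = ((k + 1 : ℕ) : ℕ∞) := by push_cast; rfl
      have h3 := h.1
      rw [h2] at h3
      have h4 : k + 1 = 1 := by exact_mod_cast h3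
      omega
  · intro h
    rw [h]
    exact min_eq_left (hk'.trans (le_add_of_nonneg_right (by norm_num)))

lemma truncDist_two_eq_two_iff (x y : V) :
    truncDist G 2 x y = 2 ↔ G.edist x y = 2 := by
  unfold truncDist
  constructor
  · intro h
    rcases min_eq_iff.mp h with h | h
    · exact h.1
    · have := h.1
      norm_num at this
  · intro h
    rw [h]
    norm_num

/-- The adjacency distance of two different vertices. -/
lemma truncDist_one_of_not_adj {x y : V} (hne : x ≠ y) (h : ¬ G.Adj x y) :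
    truncDist G 1 x y = 2 := by
  unfold truncDist
  have hlt : (1 : ℕ∞) < G.edist x y := by
    rw [← not_le, SimpleGraph.edist_le_one_iff_adj_or_eq]
    rintro (h' | h')
    · exact h h'
    · exact hne h'
  have h2 : ((1 : ℕ) : ℕ∞) + 1 = 2 := by norm_num
  rw [h2]
  apply min_eq_right
  have := Order.add_one_le_of_lt hlt
  rwa [one_add_one_eq_two] at this

end General

section Dims

variable {V : Type} [Fintype V] (G : SimpleGraph V)

lemma bdim_nonempty :
    {n : ℕ | ∃ f : V → ℕ, IsResolvingBroadcast G f ∧ ∑ v, f v = n}.Nonempty :=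
  ⟨_, fun _ => 1, isResolvingBroadcast_of_pos G _ (fun _ => Nat.one_pos), rfl⟩

lemma adim_nonempty :
    {n : ℕ | ∃ f : V → ℕ, IsResolvingBroadcast G f ∧ (∀ v, f v ≤ 1) ∧ ∑ v, f v = n}.Nonempty :=
  ⟨_, fun _ => 1, isResolvingBroadcast_of_pos G _ (fun _ => Nat.one_pos), fun _ => le_rfl, rfl⟩

lemma bdim_le {f : V → ℕ} (hf : IsResolvingBroadcast G f) : bdim G ≤ ∑ v, f v :=
  Nat.sInf_le ⟨f, hf, rfl⟩

lemma exists_bdim : ∃ f : V → ℕ, IsResolvingBroadcast G f ∧ ∑ v, f v = bdim G :=
  Nat.sInf_mem (bdim_nonempty G)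

lemma exists_adim :
    ∃ f : V → ℕ, IsResolvingBroadcast G f ∧ (∀ v, f v ≤ 1) ∧ ∑ v, f v = adim G :=
  Nat.sInf_mem (adim_nonempty G)

lemma adim_le {f : V → ℕ} (hf : IsResolvingBroadcast G f) (h1 : ∀ v, f v ≤ 1) :
    adim G ≤ ∑ v, f v :=
  Nat.sInf_le ⟨f, hf, h1, rfl⟩

lemma bdim_le_adim : bdim G ≤ adim G := by
  obtain ⟨f, hf, _, hs⟩ := exists_adim G
  rw [← hs]
  exact bdim_le G hf

lemma adim_le_card : adim G ≤ Fintype.card V := by
  have h := adim_le G (isResolvingBroadcast_of_pos G (fun _ => 1) (fun _ => Nat.one_pos))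
    (fun _ => le_rfl)
  simpa using h

end Dims

/-! ### Counting distance vectors -/

section Count

variable {V : Type} [Fintype V] (G : SimpleGraph V)

/-- The vertices without strength are determined by their vector of truncated distances. -/
lemma card_le_prod {f : V → ℕ} (hf : IsResolvingBroadcast G f) :
    Fintype.card V ≤ (univ.filter fun v => 0 < f v).card +
      ∏ v ∈ univ.filter (fun v => 0 < f v), (f v + 1) := by
  classical
  have hlt : ∀ (v : {v : V // ¬ 0 < f v}) (z : {v : V // 0 < f v}),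
      (truncDist G (f z.1) v.1 z.1).toNat - 1 < f z.1 + 1 := by
    intro v z
    have h1 := ENat.toNat_le_of_le_coe (truncDist_le G (f z.1) v.1 z.1)
    omega
  let F : {v : V // ¬ 0 < f v} → ((z : {v : V // 0 < f v}) → Fin (f z.1 + 1)) :=
    fun v z => ⟨(truncDist G (f z.1) v.1 z.1).toNat - 1, hlt v z⟩
  have hF : Function.Injective F := by
    intro v v' h
    by_contra hne
    obtain ⟨z, hz0, hz⟩ := hf v.1 v'.1 (fun h' => hne (Subtype.ext h'))
    apply hz
    have h1 : (truncDist G (f z) v.1 z).toNat - 1 = (truncDist G (f z) v'.1 z).toNat - 1 := by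
      have := congrFun h ⟨z, hz0⟩
      exact congrArg Fin.val this
    have key : ∀ u : {v : V // ¬ 0 < f v}, ∃ n : ℕ, 1 ≤ n ∧ truncDist G (f z) u.1 z = n := by
      intro u
      have hne' : u.1 ≠ z := fun h' => u.2 (h' ▸ hz0)
      have h2 := truncDist_ne_zero G (f z) hne'
      obtain ⟨n, hn⟩ := ENat.ne_top_iff_exists.mp
        (ne_top_of_le_ne_top (ENat.coe_ne_top _) (truncDist_le G (f z) u.1 z))
      refine ⟨n, ?_, hn.symm⟩
      rw [← hn] at h2
      have : n ≠ 0 := by
        intro h3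
        exact h2 (by rw [h3]; rfl)
      omega
    obtain ⟨n, hn1, hn⟩ := key v
    obtain ⟨n', hn1', hn'⟩ := key v'
    rw [hn, hn', ENat.toNat_coe, ENat.toNat_coe] at h1
    rw [hn, hn']
    have : n = n' := by omega
    rw [this]
  have h1 := Fintype.card_le_of_injective F hF
  rw [Fintype.card_pi] at h1
  have h2 : Fintype.card V = Fintype.card {v : V // 0 < f v} +
      Fintype.card {v : V // ¬ 0 < f v} := by
    rw [← Fintype.card_sum]
    exact Fintype.card_congr (Equiv.sumCompl _).symm
  have h3 : Fintype.card {v : V // 0 < f v} = (univ.filter fun v => 0 < f v).card :=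
    Fintype.card_subtype _
  have h4 : ∏ z : {v : V // 0 < f v}, Fintype.card (Fin (f z.1 + 1)) =
      ∏ v ∈ univ.filter (fun v => 0 < f v), (f v + 1) := by
    simp only [Fintype.card_fin]
    exact (prod_subtype (univ.filter fun v => 0 < f v) (by simp) (fun v => f v + 1)).symm
  omega

lemma succ_le_two_pow (i : ℕ) : i + 1 ≤ 2 ^ i := by
  have := Nat.lt_two_pow_self (n := i)
  omega

lemma four_mul_succ_le {i : ℕ} (hi : 2 ≤ i) : 4 * (i + 1) ≤ 3 * 2 ^ i := by
  induction i, hi using Nat.le_induction with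
  | base => norm_num
  | succ n hn ih =>
    rw [pow_succ]
    omega

/-- A graph with broadcast dimension `k` has at most `k + 2 ^ k` vertices. -/
lemma card_le_bdim : Fintype.card V ≤ bdim G + 2 ^ bdim G := by
  obtain ⟨f, hf, hs⟩ := exists_bdim G
  have h1 := card_le_prod G hf
  set P := univ.filter fun v => 0 < f v with hP
  have h2 : ∑ v ∈ P, f v = bdim G := by
    rw [← hs, hP, sum_filter]
    apply sum_congr rfl
    intro v _
    split_ifs with h
    · rfl
    · omega
  have h3 : P.card ≤ bdim G := by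
    rw [← h2, card_eq_sum_ones]
    apply sum_le_sum
    intro v hv
    exact (mem_filter.mp hv).2
  have h4 : ∏ v ∈ P, (f v + 1) ≤ 2 ^ bdim G := by
    rw [← h2, ← prod_pow_eq_pow_sum]
    exact prod_le_prod' fun v _ => succ_le_two_pow _
  omega

/-- If the broadcast dimension `k` is less than the adjacency dimension there are at most
`3 * 2 ^ (k - 2) + k - 1` vertices. -/
lemma card_le_of_ne (hne : adim G ≠ bdim G) :
    2 ≤ bdim G ∧ Fintype.card V ≤ 3 * 2 ^ (bdim G - 2) + (bdim G - 1) := by
  classical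
  obtain ⟨f, hf, hs⟩ := exists_bdim G
  have hex : ∃ v, 2 ≤ f v := by
    by_contra hcon
    push Not at hcon
    have h1 : adim G ≤ bdim G := by
      rw [← hs]
      exact adim_le G hf fun v => by
        have := hcon v
        omega
    exact hne (le_antisymm h1 (bdim_le_adim G))
  obtain ⟨v₀, hv₀⟩ := hex
  have h1 := card_le_prod G hf
  set P := univ.filter fun v => 0 < f v with hP
  have hmem : v₀ ∈ P := by
    rw [hP, mem_filter]
    exact ⟨mem_univ _, by omega⟩
  have h2 : ∑ v ∈ P, f v = bdim G := by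
    rw [← hs, hP, sum_filter]
    apply sum_congr rfl
    intro v _
    split_ifs with h
    · rfl
    · omega
  have h2' : f v₀ + ∑ v ∈ P.erase v₀, f v = bdim G := by
    rw [add_sum_erase _ _ hmem]
    exact h2
  have h3 : (P.erase v₀).card ≤ ∑ v ∈ P.erase v₀, f v := by
    rw [card_eq_sum_ones]
    apply sum_le_sum
    intro v hv
    exact (mem_filter.mp (mem_of_mem_erase hv)).2
  have h3' : (P.erase v₀).card + 1 = P.card := card_erase_add_one hmem
  have h4 : ∏ v ∈ P.erase v₀, (f v + 1) ≤ 2 ^ ∑ v ∈ P.erase v₀, f v := by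
    rw [← prod_pow_eq_pow_sum]
    exact prod_le_prod' fun v _ => succ_le_two_pow _
  have h5 : ∏ v ∈ P, (f v + 1) = (f v₀ + 1) * ∏ v ∈ P.erase v₀, (f v + 1) :=
    (mul_prod_erase P (fun v => f v + 1) hmem).symm
  have h6 : 4 * ∏ v ∈ P, (f v + 1) ≤ 3 * 2 ^ bdim G := by
    rw [h5, ← h2', pow_add, ← mul_assoc, ← mul_assoc]
    exact Nat.mul_le_mul (four_mul_succ_le hv₀) h4
  have hb : 2 ≤ bdim G := by omega
  obtain ⟨q, hq⟩ : ∃ q, bdim G = q + 2 := ⟨bdim G - 2, by omega⟩
  rw [hq, pow_add] at h6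
  refine ⟨hb, ?_⟩
  have h7 : bdim G - 2 = q := by omega
  rw [h7]
  omega

end Count

/-! ### Transport along a bijection -/

section Transport

variable {V W : Type} (G : SimpleGraph V) (e : V ≃ W)

lemma edist_map (x y : V) : (G.map e.toEmbedding).edist (e x) (e y) = G.edist x y := by
  have hle : ∀ {V W : Type} (G : SimpleGraph V) (H : SimpleGraph W) (φ : G →g H) (x y : V),
      H.edist (φ x) (φ y) ≤ G.edist x y := by
    intro V W G H φ x y
    by_cases h : G.Reachable x y
    · obtain ⟨w, hw⟩ := h.exists_walk_length_eq_edist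
      rw [← hw, ← SimpleGraph.Walk.length_map φ w]
      exact SimpleGraph.edist_le _
    · rw [SimpleGraph.edist_eq_top_of_not_reachable h]
      exact le_top
  let φ : G ≃g G.map e.toEmbedding := SimpleGraph.Iso.map e G
  apply le_antisymm
  · exact hle G _ φ.toHom x y
  · have h := hle _ G φ.symm.toHom (e x) (e y)
    have hx : ∀ v : V, φ.symm.toHom (e v) = v := fun v => e.symm_apply_apply v
    rwa [hx, hx] at h

lemma truncDist_map (k : ℕ) (x y : V) :
    truncDist (G.map e.toEmbedding) k (e x) (e y) = truncDist G k x y := by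
  unfold truncDist
  rw [edist_map]

lemma isResolvingBroadcast_map_iff (f : W → ℕ) :
    IsResolvingBroadcast (G.map e.toEmbedding) f ↔ IsResolvingBroadcast G (fun v => f (e v)) := by
  constructor
  · intro hf x y hxy
    obtain ⟨z, hz0, hz⟩ := hf (e x) (e y) (fun h => hxy (e.injective h))
    obtain ⟨z', rfl⟩ := e.surjective z
    refine ⟨z', hz0, ?_⟩
    rwa [truncDist_map, truncDist_map] at hz
  · intro hf x y hxy
    obtain ⟨x', rfl⟩ := e.surjective x
    obtain ⟨y', rfl⟩ := e.surjective y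
    obtain ⟨z, hz0, hz⟩ := hf x' y' (fun h => hxy (by rw [h]))
    refine ⟨e z, hz0, ?_⟩
    rwa [truncDist_map, truncDist_map]

variable [Fintype V] [Fintype W]

lemma bdim_map : bdim (G.map e.toEmbedding) = bdim G := by
  unfold bdim
  congr 1
  ext n
  constructor
  · rintro ⟨f, hf, hs⟩
    refine ⟨fun v => f (e v), (isResolvingBroadcast_map_iff G e f).mp hf, ?_⟩
    rw [← hs]
    exact e.sum_comp f
  · rintro ⟨f, hf, hs⟩
    refine ⟨fun w => f (e.symm w), (isResolvingBroadcast_map_iff G e _).mpr (by simpa using hf), ?_⟩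
    rw [← hs]
    exact e.symm.sum_comp f

lemma adim_map : adim (G.map e.toEmbedding) = adim G := by
  unfold adim
  congr 1
  ext n
  constructor
  · rintro ⟨f, hf, h1, hs⟩
    refine ⟨fun v => f (e v), (isResolvingBroadcast_map_iff G e f).mp hf, fun v => h1 _, ?_⟩
    rw [← hs]
    exact e.sum_comp f
  · rintro ⟨f, hf, h1, hs⟩
    refine ⟨fun w => f (e.symm w), (isResolvingBroadcast_map_iff G e _).mpr (by simpa using hf),
      fun v => h1 _, ?_⟩
    rw [← hs]
    exact e.symm.sum_comp f

end Transport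

/-! ### The graph -/

/-- Binary strings of length `p`. -/
abbrev Str (p : ℕ) : Type := Fin p → Bool

/-- Vertices: `(j, s)`, the coordinates `w t` and the centre. -/
abbrev Vtx (p : ℕ) : Type := (Fin 3 × Str p) ⊕ Option (Fin p)

/-- The oriented adjacency. -/
def rel (p : ℕ) : Vtx p → Vtx p → Prop
  | Sum.inl a, Sum.inl b => a.2 = b.2 ∧ (a.1 : ℕ) + 1 = b.1
  | Sum.inl a, Sum.inr none => a.1 = 0
  | Sum.inl a, Sum.inr (some t) => a.2 t = true
  | _, _ => False

/-- The graph. -/
def gap (p : ℕ) : SimpleGraph (Vtx p) where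
  Adj u v := rel p u v ∨ rel p v u
  symm := ⟨fun _ _ h => h.symm⟩
  loopless := ⟨by
    rintro (a | (_ | t)) h
    · rcases h with h | h <;> · have := h.2; omega
    · rcases h with h | h <;> exact h
    · rcases h with h | h <;> exact h⟩

section Gap

variable {p : ℕ}

lemma adj_ll (a b : Fin 3 × Str p) :
    (gap p).Adj (Sum.inl a) (Sum.inl b) ↔ a.2 = b.2 ∧ ((a.1 : ℕ) + 1 = b.1 ∨ (b.1 : ℕ) + 1 = a.1) := by
  constructor
  · rintro (h | h)
    · exact ⟨h.1, Or.inl h.2⟩
    · exact ⟨h.1.symm, Or.inr h.2⟩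
  · rintro ⟨h, h' | h'⟩
    · exact Or.inl ⟨h, h'⟩
    · exact Or.inr ⟨h.symm, h'⟩

lemma adj_lz (a : Fin 3 × Str p) : (gap p).Adj (Sum.inl a) (Sum.inr none) ↔ a.1 = 0 := by
  constructor
  · rintro (h | h)
    · exact h
    · exact h.elim
  · intro h
    exact Or.inl h

lemma adj_lw (a : Fin 3 × Str p) (t : Fin p) :
    (gap p).Adj (Sum.inl a) (Sum.inr (some t)) ↔ a.2 t = true := by
  constructor
  · rintro (h | h)
    · exact h
    · exact h.elim
  · intro h
    exact Or.inl h

lemma not_adj_rr (u v : Option (Fin p)) : ¬ (gap p).Adj (Sum.inr u) (Sum.inr v) := by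
  rintro (h | h)
  · rcases u with _ | _ <;> exact h
  · rcases v with _ | _ <;> exact h

lemma edist_lz (a : Fin 3 × Str p) :
    (gap p).edist (Sum.inl a) (Sum.inr none) = 2 ↔ a.1 = 1 := by
  rw [SimpleGraph.edist_eq_two_iff]
  constructor
  · rintro ⟨_, hna, w, hw⟩
    rw [SimpleGraph.mem_commonNeighbors] at hw
    rcases w with b | w
    · have h1 := (adj_ll _ _).mp hw.1
      have h2 := (adj_lz _).mp hw.2.symm
      rw [h2] at h1
      rcases h1.2 with h | h
      · exact absurd h (by simp)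
      · apply Fin.ext
        rw [← h]
        rfl
    · exact absurd hw.2 (not_adj_rr _ _)
  · intro h
    refine ⟨by simp, ?_, Sum.inl (0, a.2), ?_⟩
    · rw [adj_lz, h]
      decide
    · rw [SimpleGraph.mem_commonNeighbors]
      refine ⟨(adj_ll _ _).mpr ⟨rfl, Or.inr ?_⟩, ((adj_lz _).mpr rfl).symm⟩
      rw [h]
      rfl

lemma gap_connected (p : ℕ) : (gap p).Connected := by
  have hy : ∀ s : Str p, (gap p).Reachable (Sum.inr none) (Sum.inl (0, s)) := fun s =>
    SimpleGraph.Adj.reachable ((adj_lz _).mpr rfl).symm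
  have hx : ∀ s : Str p, (gap p).Reachable (Sum.inr none) (Sum.inl (1, s)) := fun s =>
    (hy s).trans (SimpleGraph.Adj.reachable ((adj_ll _ _).mpr ⟨rfl, Or.inl rfl⟩))
  have hx' : ∀ s : Str p, (gap p).Reachable (Sum.inr none) (Sum.inl (2, s)) := fun s =>
    (hx s).trans (SimpleGraph.Adj.reachable ((adj_ll _ _).mpr ⟨rfl, Or.inl rfl⟩))
  have hw : ∀ t : Fin p, (gap p).Reachable (Sum.inr none) (Sum.inr (some t)) := fun t =>
    (hy fun _ => true).trans (SimpleGraph.Adj.reachable ((adj_lw _ _).mpr rfl))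
  have hall : ∀ v : Vtx p, (gap p).Reachable (Sum.inr none) v := by
    rintro (⟨j, s⟩ | (_ | t))
    · fin_cases j
      · exact hy s
      · exact hx s
      · exact hx' s
    · exact SimpleGraph.Reachable.refl _
    · exact hw t
  exact (SimpleGraph.connected_iff _).mpr
    ⟨fun u v => (hall u).symm.trans (hall v), ⟨Sum.inr none⟩⟩

/-- The broadcast: strength `2` from the centre, strength `1` from the coordinates. -/
def fb (p : ℕ) : Vtx p → ℕ
  | Sum.inl _ => 0
  | Sum.inr none => 2
  | Sum.inr (some _) => 1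

lemma fb_resolving (p : ℕ) : IsResolvingBroadcast (gap p) (fb p) := by
  intro u v huv
  rcases u with ⟨j, s⟩ | (_ | t)
  · rcases v with ⟨j', s'⟩ | (_ | t)
    · by_cases hj : j = j'
      · have hs : s ≠ s' := fun h => huv (by rw [hj, h])
        obtain ⟨t, ht⟩ := Function.ne_iff.mp hs
        refine ⟨Sum.inr (some t), Nat.one_pos, ?_⟩
        intro heq
        change truncDist (gap p) 1 _ _ = truncDist (gap p) 1 _ _ at heq
        apply ht
        have h1 := adj_lw (j, s) t
        have h2 := adj_lw (j', s') t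
        rw [← truncDist_eq_one_iff _ le_rfl] at h1 h2
        rw [Bool.eq_iff_iff]
        rw [heq] at h1
        exact h1.symm.trans h2
      · refine ⟨Sum.inr none, Nat.two_pos, ?_⟩
        intro heq
        change truncDist (gap p) 2 _ _ = truncDist (gap p) 2 _ _ at heq
        have h1 := adj_lz (j, s)
        have h2 := adj_lz (j', s')
        rw [← truncDist_eq_one_iff _ one_le_two] at h1 h2
        have h3 := edist_lz (j, s)
        have h4 := edist_lz (j', s')
        rw [← truncDist_two_eq_two_iff] at h3 h4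
        rw [heq] at h1 h3
        have h5 : j = 0 ↔ j' = 0 := h1.symm.trans h2
        have h6 : j = 1 ↔ j' = 1 := h3.symm.trans h4
        apply hj
        revert h5 h6
        clear h1 h2 h3 h4 heq hj huv
        revert j j'
        decide
    · exact separated_of_pos _ _ huv (Or.inr Nat.two_pos)
    · exact separated_of_pos _ _ huv (Or.inr Nat.one_pos)
  · exact separated_of_pos _ _ huv (Or.inl Nat.two_pos)
  · exact separated_of_pos _ _ huv (Or.inl Nat.one_pos)

lemma sum_fb (p : ℕ) : ∑ v, fb p v = p + 2 := by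
  rw [Fintype.sum_sum_type, Fintype.sum_option]
  simp [fb]
  omega

lemma card_vtx (p : ℕ) : Fintype.card (Vtx p) = 3 * 2 ^ p + (p + 1) := by
  simp

lemma bdim_gap (p : ℕ) : bdim (gap p) = p + 2 := by
  apply le_antisymm
  · rw [← sum_fb]
    exact bdim_le _ (fb_resolving p)
  · by_contra hcon
    push Not at hcon
    have h1 := card_le_bdim (gap p)
    rw [card_vtx] at h1
    have h2 : bdim (gap p) ≤ p + 1 := by omega
    have h3 : 2 ^ bdim (gap p) ≤ 2 ^ (p + 1) := Nat.pow_le_pow_right (by norm_num) h2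
    have h4 : 0 < 2 ^ p := by positivity
    rw [pow_succ] at h3
    omega

lemma le_adim_gap (p : ℕ) : 2 ^ p ≤ adim (gap p) := by
  obtain ⟨f, hf, h1, hs⟩ := exists_adim (gap p)
  have key : ∀ s : Str p, 1 ≤ ∑ j : Fin 3, f (Sum.inl (j, s)) := by
    intro s
    by_contra hcon
    have h0 : ∀ j : Fin 3, f (Sum.inl (j, s)) = 0 := by
      intro j
      have := single_le_sum (f := fun j : Fin 3 => f (Sum.inl (j, s))) (fun _ _ => Nat.zero_le _)
        (mem_univ j)
      omega
    obtain ⟨v, hv0, hv⟩ := hf (Sum.inl (1, s)) (Sum.inl (2, s)) (by simp)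
    have hv1 : f v = 1 := le_antisymm (h1 v) hv0
    rw [hv1] at hv
    have hne : ∀ j : Fin 3, (Sum.inl (j, s) : Vtx p) ≠ v := by
      intro j h
      have := h0 j
      rw [h] at this
      omega
    have hadj : (gap p).Adj (Sum.inl (1, s)) v ↔ (gap p).Adj (Sum.inl (2, s)) v := by
      rcases v with ⟨j, s'⟩ | (_ | t)
      · have hs' : s ≠ s' := fun h => hne j (by rw [h])
        rw [adj_ll, adj_ll]
        exact ⟨fun h => absurd h.1 hs', fun h => absurd h.1 hs'⟩
      · rw [adj_lz, adj_lz]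
        change (1 : Fin 3) = 0 ↔ (2 : Fin 3) = 0
        decide
      · rw [adj_lw, adj_lw]
    apply hv
    by_cases h : (gap p).Adj (Sum.inl (1, s)) v
    · rw [(truncDist_eq_one_iff _ le_rfl _ _).mpr h,
        (truncDist_eq_one_iff _ le_rfl _ _).mpr (hadj.mp h)]
    · rw [truncDist_one_of_not_adj _ (hne 1) h,
        truncDist_one_of_not_adj _ (hne 2) (fun h' => h (hadj.mpr h'))]
  rw [← hs, Fintype.sum_sum_type, Fintype.sum_prod_type_right]
  calc 2 ^ p = ∑ _s : Str p, 1 := by simp
    _ ≤ ∑ s : Str p, ∑ j : Fin 3, f (Sum.inl (j, s)) := sum_le_sum fun s _ => key s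
    _ ≤ _ := Nat.le_add_right _ _

end Gap

/-! ### The theorem -/

/-- For every `k ≥ 2` the graph `gap (k - 2)`, on an initial segment of `ℕ`. -/
lemma exists_graph {k : ℕ} (hk : 2 ≤ k) : ∃ G : SimpleGraph (Fin (3 * 2 ^ (k - 2) + (k - 1))),
    G.Connected ∧ bdim G = k ∧ 2 ^ (k - 2) ≤ adim G := by
  obtain ⟨p, rfl⟩ : ∃ p, k = p + 2 := ⟨k - 2, by omega⟩
  have e : Vtx p ≃ Fin (3 * 2 ^ (p + 2 - 2) + (p + 2 - 1)) :=
    Fintype.equivFinOfCardEq (card_vtx p)
  refine ⟨(gap p).map e.toEmbedding, ?_, ?_, ?_⟩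
  · exact (SimpleGraph.Iso.map e (gap p)).connected_iff.mp (gap_connected p)
  · rw [bdim_map, bdim_gap]
  · rw [adim_map]
    exact le_adim_gap p

lemma edge_props : (⊤ : SimpleGraph (Fin 2)).Connected ∧ bdim (⊤ : SimpleGraph (Fin 2)) = 1 ∧
    1 ≤ adim (⊤ : SimpleGraph (Fin 2)) := by
  have h1 : 1 ≤ bdim (⊤ : SimpleGraph (Fin 2)) := by
    by_contra hcon
    have h0 : bdim (⊤ : SimpleGraph (Fin 2)) = 0 := by omega
    have h := card_le_bdim (⊤ : SimpleGraph (Fin 2))
    rw [h0] at h
    simp at h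
  have h2 : bdim (⊤ : SimpleGraph (Fin 2)) ≤ 1 := by
    have hf : IsResolvingBroadcast (⊤ : SimpleGraph (Fin 2)) (fun v => if v = 0 then 1 else 0) := by
      intro x y hxy
      apply separated_of_pos _ _ hxy
      revert x y
      decide
    have h := bdim_le _ hf
    simpa using h
  exact ⟨SimpleGraph.connected_top, le_antisymm h2 h1, h1.trans (bdim_le_adim _)⟩

/-- **Q1, answered positively, with the sharp rate.** There is a sequence of finite connected
graphs `G k` with `bdim (G k) = k` and `adim (G k) ≥ 2 ^ k / 4` for every `k ≥ 1`, so that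
`adim (G k) ≥ 2 ^ (c k)` for every `c < 1` and all large `k`; in every graph
`adim ≤ |V| ≤ bdim + 2 ^ bdim`, and `|V| ≤ 3 * 2 ^ (bdim - 2) + bdim - 1`, the order of
`G (bdim)`, unless `adim = bdim`. -/
theorem result :
    (∃ (n : ℕ → ℕ) (G : ∀ k : ℕ, SimpleGraph (Fin (n k))),
      (∀ k : ℕ, 1 ≤ k → (G k).Connected ∧ bdim (G k) = k ∧ 2 ^ k ≤ 4 * adim (G k)) ∧
      (∀ k : ℕ, 2 ≤ k → n k = 3 * 2 ^ (k - 2) + (k - 1)) ∧
      ∀ c : ℝ, c < 1 → ∃ N : ℕ, ∀ k : ℕ, N < k →
        (2 : ℝ) ^ (c * (k : ℝ)) ≤ (adim (G k) : ℝ)) ∧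
    (∀ (V : Type) [Fintype V] (H : SimpleGraph V),
      adim H ≤ Fintype.card V ∧ Fintype.card V ≤ bdim H + 2 ^ bdim H ∧
      (adim H = bdim H ∨
        (2 ≤ bdim H ∧ Fintype.card V ≤ 3 * 2 ^ (bdim H - 2) + (bdim H - 1)))) := by
  refine ⟨?_, fun V _ H => ⟨adim_le_card H, card_le_bdim H, ?_⟩⟩
  · have hex : ∀ k : ℕ, ∃ (n : ℕ) (G : SimpleGraph (Fin n)),
        (1 ≤ k → G.Connected ∧ bdim G = k ∧ 2 ^ k ≤ 4 * adim G) ∧
        (2 ≤ k → n = 3 * 2 ^ (k - 2) + (k - 1)) := by
      intro k
      by_cases hk : 2 ≤ k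
      · obtain ⟨G, h1, h2, h3⟩ := exists_graph hk
        refine ⟨_, G, fun _ => ⟨h1, h2, ?_⟩, fun _ => rfl⟩
        obtain ⟨q, rfl⟩ : ∃ q, k = q + 2 := ⟨k - 2, by omega⟩
        have h4 : 2 ^ (q + 2 - 2) = 2 ^ q := by rw [Nat.add_sub_cancel]
        have h5 : 2 ^ q ≤ adim G := h4.symm.le.trans h3
        rw [pow_add]
        omega
      · obtain ⟨h1, h2, h3⟩ := edge_props
        refine ⟨2, ⊤, fun hk1 => ?_, fun h => absurd h hk⟩
        have : k = 1 := by omega
        rw [this]
        exact ⟨h1, h2, by omega⟩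
    choose n G hG using hex
    refine ⟨n, G, fun k => (hG k).1, fun k => (hG k).2, fun c hc => ?_⟩
    obtain ⟨N, hN⟩ := exists_nat_ge (2 / (1 - c))
    refine ⟨N, fun k hk => ?_⟩
    have hc' : 0 < 1 - c := by linarith
    have hk1 : 1 ≤ k := by omega
    have hkN : (N : ℝ) ≤ k := by exact_mod_cast hk.le
    have h1 : 2 ≤ (1 - c) * k := by
      have h2 : 2 / (1 - c) ≤ k := hN.trans hkN
      rw [div_le_iff₀ hc'] at h2
      linarith
    have h2 : (2 : ℝ) ^ (c * (k : ℝ)) * 4 ≤ 2 ^ (k : ℝ) := by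
      have h3 : (2 : ℝ) ^ (c * (k : ℝ)) * 4 = 2 ^ (c * (k : ℝ) + 2) := by
        rw [Real.rpow_add (by norm_num)]
        norm_num
      rw [h3]
      exact Real.rpow_le_rpow_of_exponent_le (by norm_num) (by linarith)
    have h4 : (2 : ℝ) ^ (k : ℝ) ≤ 4 * (adim (G k) : ℝ) := by
      rw [Real.rpow_natCast]
      exact_mod_cast ((hG k).1 hk1).2.2
    linarith
  · by_cases h : adim H = bdim H
    · exact Or.inl h
    · exact Or.inr (card_le_of_ne H h)

end Pool.Agent.Results.MP_d61170_co.SharpGap
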